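import Pool.Agent.E8helper80.AX.B1
import Pool.Agent.E8helper80.AX.DefsG

/-!
# Project AX, piece B2G: the general version of `Pool.Agent.E8helper66.AX.B2` (helper71)
-/

set_option autoImplicit false

open Finset Pool.Agent.TH176.Nag Polynomial

namespace Pool.Agent.E8helper71.AX

open Pool.Agent.E8helper80.AX

variable {M : ℕ}

lemma sM (M : ℕ) : √((M * M + 2 * M : ℕ) : ℝ) ^ 2 = (M : ℝ) * M + 2 * M := by
  rw [Real.sq_sqrt (Nat.cast_nonneg _)]
  push_cast
  ring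

lemma KG_sq (M : ℕ) : 2 * KG M * (KG M - M) = M := by
  unfold KG
  linear_combination (1 / 2 : ℝ) * sM M

lemma KG_gt (hM : 1 ≤ M) : (M : ℝ) + 1 / 4 < KG M := by
  have hM' : (1 : ℝ) ≤ M := by exact_mod_cast hM
  have h : (M : ℝ) + 1 / 2 < √((M * M + 2 * M : ℕ) : ℝ) := by
    apply Real.lt_sqrt_of_sq_lt
    push_cast
    nlinarith
  unfold KG
  linarith

lemma KG_lt (hM : 1 ≤ M) : KG M < (M : ℝ) + 1 / 2 := by
  have hM' : (1 : ℝ) ≤ M := by exact_mod_cast hM
  have h : √((M * M + 2 * M : ℕ) : ℝ) < (M : ℝ) + 1 := by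
    rw [Real.sqrt_lt' (by linarith)]
    push_cast
    nlinarith
  unfold KG
  linarith

lemma KG_irr (hM : 1 ≤ M) : Irrational (KG M) := by
  have h : Irrational (√((M * M + 2 * M : ℕ) : ℝ)) := by
    rw [irrational_sqrt_natCast_iff]
    rintro ⟨r, hr⟩
    have h1 : M < r := by nlinarith
    have h2 : r < M + 1 := by nlinarith
    omega
  rintro ⟨q, hq⟩
  apply h
  refine ⟨2 * q - M, ?_⟩
  push_cast
  rw [hq]
  unfold KG
  push_cast
  ring

lemma KG_ne (hM : 1 ≤ M) (n t : ℤ) (ht : t ≠ 0) : KG M * (n : ℝ) ≠ t := by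
  intro h
  have hn : (n : ℝ) ≠ 0 := by
    intro h0
    rw [h0, mul_zero] at h
    exact ht (by exact_mod_cast h.symm)
  apply KG_irr hM
  refine ⟨(t : ℚ) / n, ?_⟩
  push_cast
  rw [← h]
  field_simp

lemma ABG_facts (hM : 1 ≤ M) {h : ℕ} {t j : ℤ} (hp : (t, j) ∈ ABG M h) :
    0 ≤ j ∧ j ≤ h ∧ 0 ≤ t ∧ (t : ℝ) ≤ KG M * ((h : ℝ) - j) ∧
      KG M * ((h : ℝ) - j - 2 * t) ≤ t := by
  obtain ⟨h1, h2, h3⟩ := hp
  simp only at h1 h2 h3
  have hM' : (1 : ℝ) ≤ M := by exact_mod_cast hM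
  have k1 := KG_gt hM
  have k2 := KG_sq M
  have h4 : (0 : ℝ) ≤ (h : ℝ) - j := by
    have : 0 ≤ (M : ℝ) * ((h : ℝ) - j) := by linarith
    exact nonneg_of_mul_nonneg_right this (by linarith)
  have h5 : j ≤ h := by
    have : (j : ℝ) ≤ h := by linarith
    exact_mod_cast this
  have h6 : (0 : ℝ) ≤ t := by
    have : 0 ≤ (KG M - M) * ((h : ℝ) - j) := mul_nonneg (by linarith) h4
    linarith
  refine ⟨h1, h5, by exact_mod_cast h6, h3, ?_⟩
  have h7 : 2 * KG M * ((KG M - M) * ((h : ℝ) - j)) ≤ 2 * KG M * t :=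
    mul_le_mul_of_nonneg_left h2 (by linarith)
  have h8 : (M : ℝ) * ((h : ℝ) - j) ≤ 2 * KG M * t := by
    calc (M : ℝ) * ((h : ℝ) - j) = 2 * KG M * ((KG M - M) * ((h : ℝ) - j)) := by
          linear_combination (-((h : ℝ) - j)) * k2
      _ ≤ _ := h7
  have h9 : KG M * ((M : ℝ) * ((h : ℝ) - j)) ≤ KG M * (2 * KG M * t) :=
    mul_le_mul_of_nonneg_left h8 (by linarith)
  have h10 : KG M * (2 * KG M * t) = (2 * M * KG M + M) * t := by
    linear_combination (t : ℝ) * k2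
  rw [h10] at h9
  have h11 : (M : ℝ) * (KG M * ((h : ℝ) - j - 2 * t)) ≤ (M : ℝ) * t := by linarith
  exact le_of_mul_le_mul_left h11 (by linarith)

lemma wc_zero (hM : 1 ≤ M) {h : ℕ} {f : (ℤ × ℤ) →₀ ℚ} (hf : (↑f.support : Set (ℤ × ℤ)) ⊆ ABG M h) {t : ℤ} {k : ℕ}
    (hz : t < 0 ∨ KG M * ((h : ℝ) - k) < t) : wc f t k = 0 := by
  unfold wc Finsupp.sum
  refine Finset.sum_eq_zero ?_
  rintro ⟨t', j⟩ hp
  have hp2 := ABG_facts hM (hf hp)
  simp only
  split_ifs with h1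
  · subst h1
    have h3 : j.toNat < k := by
      by_contra hk
      push Not at hk
      have h4 : (k : ℤ) ≤ j := by omega
      have h5 : (k : ℝ) ≤ j := by exact_mod_cast h4
      rcases hz with hz | hz
      · omega
      · have h6 : KG M * ((h : ℝ) - j) ≤ KG M * ((h : ℝ) - k) :=
          mul_le_mul_of_nonneg_left (by linarith) (by linarith [KG_gt hM])
        linarith [hp2.2.2.2.1]
    rw [Nat.choose_eq_zero_of_lt h3]
    simp
  · rfl

lemma dvd_of_taylor {p : ℚ[X]} {r : ℕ} (h : ∀ b < r, (taylor 1 p).coeff b = 0) :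
    (X - C 1) ^ r ∣ p := by
  rw [X_sub_C_pow_dvd_iff, X_pow_dvd_iff]
  exact h

lemma deg_ge {p : ℚ[X]} (hp : p ≠ 0) {a r : ℕ} (h1 : X ^ a ∣ p) (h2 : (X - C 1) ^ r ∣ p) :
    a + r ≤ p.natDegree := by
  have hc : IsCoprime ((X : ℚ[X]) ^ a) ((X - C 1) ^ r) := by
    refine IsCoprime.pow ⟨1, -1, ?_⟩
    rw [C_1]; ring
  have h3 := natDegree_le_of_dvd (hc.mul_dvd h1 h2) hp
  have h4 : ((X : ℚ[X]) ^ a * (X - C 1) ^ r).natDegree = a + r := by
    rw [natDegree_mul (pow_ne_zero _ X_ne_zero) (pow_ne_zero _ (X_sub_C_ne_zero 1)), natDegree_pow,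
      natDegree_X, mul_one, natDegree_pow, natDegree_X_sub_C, mul_one]
  rwa [h4] at h3

lemma col_zero (hM : 1 ≤ M) {h : ℕ} {f : (ℤ × ℤ) →₀ ℚ} (hf : (↑f.support : Set (ℤ × ℤ)) ⊆ ABG M h)
    (h0 : f (0, (h : ℤ)) = 0) {i t : ℕ} (hti : t ≤ i)
    (hw : ∀ k < t + i, wc f t k = 0) : colp f t = 0 := by
  have hpos : ∀ p ∈ f.support, 0 ≤ p.2 := fun p hp => (ABG_facts hM (t := p.1) (j := p.2) (hf hp)).1
  have hco := colp_coeff f hpos (t : ℤ)
  have hab : ∀ j : ℕ, (colp f (t : ℤ)).coeff j ≠ 0 → ((t : ℤ), (j : ℤ)) ∈ ABG M h := by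
    intro j hj
    rw [hco] at hj
    exact hf (Finsupp.mem_support_iff.2 hj)
  by_contra hne
  have hb : (colp f (t : ℤ)).coeff (colp f (t : ℤ)).natDegree ≠ 0 := by
    rw [coeff_natDegree]
    exact leadingCoeff_ne_zero.2 hne
  have ha : (colp f (t : ℤ)).coeff (colp f (t : ℤ)).natTrailingDegree ≠ 0 :=
    (trailingCoeff_eq_zero (p := colp f (t : ℤ))).not.2 hne
  have h1 := ABG_facts hM (hab _ hb)
  have h2 := ABG_facts hM (hab _ ha)
  have h3 : X ^ (colp f (t : ℤ)).natTrailingDegree ∣ colp f (t : ℤ) := by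
    rw [X_pow_dvd_iff]
    intro d hd
    exact coeff_eq_zero_of_lt_natTrailingDegree hd
  have h4 : (X - C 1) ^ (t + i) ∣ colp f (t : ℤ) := by
    apply dvd_of_taylor
    intro b hb
    rw [colp_taylor]
    exact hw b hb
  have h5 := deg_ge hne h3 h4
  rcases Nat.eq_zero_or_pos t with rfl | ht
  · -- the column `0`
    have h6 := h1.2.2.2.2
    have h7 := h1.2.1
    have h8 : (h : ℝ) - ((colp f ((0 : ℕ) : ℤ)).natDegree : ℤ) ≤ 0 := by
      have k := KG_gt hM
      by_contra hcon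
      push Not at hcon
      have := mul_pos (show (0 : ℝ) < KG M by linarith) hcon
      push_cast at h6 this
      linarith
    have h9 : (h : ℤ) ≤ ((colp f ((0 : ℕ) : ℤ)).natDegree : ℤ) := by
      have : (h : ℝ) ≤ ((colp f ((0 : ℕ) : ℤ)).natDegree : ℤ) := by linarith
      exact_mod_cast this
    have h10 : ((colp f ((0 : ℕ) : ℤ)).natDegree : ℤ) = h := le_antisymm h7 h9
    apply hb
    rw [hco, h10]
    exact h0
  · set a := (colp f (t : ℤ)).natTrailingDegree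
    set b := (colp f (t : ℤ)).natDegree
    have h6 := h1.2.2.2.1
    have h7 := h2.2.2.2.2
    have h8 : KG M * ((h : ℝ) - (a : ℤ) - 2 * (t : ℤ)) ≠ (t : ℤ) := by
      have := KG_ne hM ((h : ℤ) - a - 2 * t) t (by omega)
      push_cast at this ⊢
      exact this
    have h9 : KG M * ((h : ℝ) - (a : ℤ) - 2 * (t : ℤ)) < KG M * ((h : ℝ) - (b : ℤ)) :=
      lt_of_lt_of_le (lt_of_le_of_ne h7 h8) h6
    have h10 := lt_of_mul_lt_mul_left h9 (by linarith [KG_gt hM])
    have h11 : (b : ℝ) < a + 2 * t := by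
      push_cast at h10
      linarith
    have h12 : b < a + 2 * t := by exact_mod_cast h11
    omega

theorem apexfreeG {h m : ℕ} (hM : 1 ≤ M) (hd0 : 0 ≤ KG M * h - (KG M + 1) * m) (hd1 : KG M * h - (KG M + 1) * m < 1 / 2)
    {f : (ℤ × ℤ) →₀ ℚ} (hf : (↑f.support : Set (ℤ × ℤ)) ⊆ ABG M h) (h0 : f (0, (h : ℤ)) = 0)
    (hH : ∀ b < m, ∀ c : ℤ, ⌊KG M * h - (KG M + 1) * (b : ℝ)⌋ < c + ((M : ℤ) + 2) * ((m : ℤ) - b) → tc f c b = 0) :
    f = 0 := by
  have hM' : (1 : ℝ) ≤ M := by exact_mod_cast hM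
  have k1 := KG_gt hM
  have k2 := KG_lt hM
  have k3 := KG_sq M
  obtain ⟨δ, hδ⟩ : ∃ δ : ℝ, δ = KG M * h - (KG M + 1) * m := ⟨_, rfl⟩
  rw [← hδ] at hd0 hd1
  have hpos : ∀ p ∈ f.support, 0 ≤ p.2 := fun p hp => (ABG_facts hM (t := p.1) (j := p.2) (hf hp)).1
  have htc : ∀ b < m, ∀ c : ℤ, δ - c < ((M : ℝ) + 1 - KG M) * ((m : ℝ) - b) → tc f c b = 0 := by
    intro b hb c hc
    apply hH b hb c
    rw [Int.floor_lt]
    push_cast
    linarith
  have hwc : ∀ (t : ℤ) (k : ℕ), ph f (t - k) = 0 → wc f t k = 0 := by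
    intro t k hk
    have h1 := ph_coeff f (t - k) k
    rw [hk, coeff_zero, sub_add_cancel] at h1
    exact h1.symm
  have hdeg : ∀ c : ℤ, ph f c ≠ 0 → (KG M + 1) * ((ph f c).natDegree : ℝ) ≤ KG M * h - c := by
    intro c hc
    have h1 : (ph f c).coeff (ph f c).natDegree ≠ 0 := by
      rw [coeff_natDegree]
      exact leadingCoeff_ne_zero.2 hc
    rw [ph_coeff] at h1
    by_contra hcon
    push Not at hcon
    apply h1
    apply wc_zero hM hf
    right
    push_cast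
    linarith
  have hbase : ∀ c : ℤ, 0 < c → ph f c = 0 := by
    intro c hc
    by_contra hne
    have hc1 : (1 : ℝ) ≤ c := by exact_mod_cast hc
    have h1 : (X - C 1) ^ m ∣ ph f c := by
      apply dvd_of_taylor
      intro b hb
      rw [ph_taylor]
      apply htc b hb
      have hb' : (b : ℝ) < m := by exact_mod_cast hb
      have : 0 < ((M : ℝ) + 1 - KG M) * ((m : ℝ) - b) := mul_pos (by linarith) (by linarith)
      linarith
    have h2 := deg_ge hne (a := 0) (by simp) h1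
    have h3 := hdeg c hne
    have h4 : (m : ℝ) ≤ (ph f c).natDegree := by
      have : m ≤ (ph f c).natDegree := by omega
      exact_mod_cast this
    have h5 : (KG M + 1) * (m : ℝ) ≤ (KG M + 1) * ((ph f c).natDegree : ℝ) :=
      mul_le_mul_of_nonneg_left h4 (by linarith)
    linarith
  have hstep : ∀ i : ℕ, (∀ c : ℤ, -(i : ℤ) < c → ph f c = 0) → ph f (-(i : ℤ)) = 0 := by
    intro i hi
    by_contra hne
    have hcol : ∀ t : ℕ, t ≤ i → ∀ k, wc f t k = 0 := by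
      intro t ht k
      have h1 : colp f t = 0 := by
        apply col_zero hM hf h0 ht
        intro k hk
        apply hwc
        apply hi
        omega
      rw [← colp_taylor, h1]
      simp
    have hX : X ^ (2 * i + 1) ∣ ph f (-(i : ℤ)) := by
      rw [X_pow_dvd_iff]
      intro k hk
      rw [ph_coeff]
      rcases lt_or_ge k i with h1 | h1
      · apply wc_zero hM hf
        left
        omega
      · have h2 : -(i : ℤ) + k = ((k - i : ℕ) : ℤ) := by omega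
        rw [h2]
        apply hcol
        omega
    have hi0 : (0 : ℝ) ≤ i := Nat.cast_nonneg i
    have h10 : 0 < (M : ℝ) + 1 - KG M := by linarith
    set J := ⌊((i : ℝ) + δ) / ((M : ℝ) + 1 - KG M)⌋₊ with hJ
    have hJ1 : (J : ℝ) ≤ ((i : ℝ) + δ) / ((M : ℝ) + 1 - KG M) := Nat.floor_le (by positivity)
    have hJ2 : ((i : ℝ) + δ) / ((M : ℝ) + 1 - KG M) < J + 1 := Nat.lt_floor_add_one _
    rw [le_div_iff₀ h10] at hJ1
    rw [div_lt_iff₀ h10] at hJ2
    have hY : (X - C 1) ^ (m - J) ∣ ph f (-(i : ℤ)) := by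
      apply dvd_of_taylor
      intro b hb
      rw [ph_taylor]
      apply htc b (by omega)
      have h1 : b + J + 1 ≤ m := by omega
      have h2 : (b : ℝ) + J + 1 ≤ m := by exact_mod_cast h1
      have h3 : ((J : ℝ) + 1) * ((M : ℝ) + 1 - KG M) ≤ ((m : ℝ) - b) * ((M : ℝ) + 1 - KG M) :=
        mul_le_mul_of_nonneg_right (by linarith) h10.le
      push_cast
      linarith
    have h1 := deg_ge hne hX hY
    have h2 := hdeg _ hne
    have h3 : 2 * i + 1 + m ≤ (ph f (-(i : ℤ))).natDegree + J := by omega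
    have h4 : 2 * (i : ℝ) + 1 + m ≤ (ph f (-(i : ℤ))).natDegree + J := by exact_mod_cast h3
    have h5 : (KG M + 1) * (2 * (i : ℝ) + 1 + m - J) ≤ (KG M + 1) * ((ph f (-(i : ℤ))).natDegree : ℝ) :=
      mul_le_mul_of_nonneg_left (by linarith) (by linarith)
    push_cast at h2
    have h6 : (KG M + 1) * (2 * (i : ℝ) + 1 - J) ≤ i + δ := by linarith
    have h7 : ((M : ℝ) + 1 - KG M) * ((KG M + 1) * (2 * (i : ℝ) + 1 - J)) ≤ ((M : ℝ) + 1 - KG M) * (i + δ) :=
      mul_le_mul_of_nonneg_left h6 h10.le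
    have h8 : (KG M + 1) * ((J : ℝ) * ((M : ℝ) + 1 - KG M)) ≤ (KG M + 1) * (i + δ) :=
      mul_le_mul_of_nonneg_left hJ1 (by linarith)
    have h9 : ((M : ℝ) + 1 - KG M) * (KG M + 1) = ((M : ℝ) + 2) / 2 := by linear_combination (-1 / 2 : ℝ) * k3
    have h11 : (((M : ℝ) + 2) / 2) * (2 * i + 1) ≤ ((M : ℝ) + 2) * (i + δ) := by
      calc (((M : ℝ) + 2) / 2) * (2 * i + 1) = ((M : ℝ) + 1 - KG M) * ((KG M + 1) * (2 * (i : ℝ) + 1 - J)) +
            (KG M + 1) * ((J : ℝ) * ((M : ℝ) + 1 - KG M)) := by rw [← h9]; ring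
        _ ≤ ((M : ℝ) + 1 - KG M) * (i + δ) + (KG M + 1) * (i + δ) := add_le_add h7 h8
        _ = ((M : ℝ) + 2) * (i + δ) := by ring
    have h12 : (2 * (i : ℝ) + 1) / 2 ≤ i + δ := by
      have h13 : ((M : ℝ) + 2) * ((2 * (i : ℝ) + 1) / 2) ≤ ((M : ℝ) + 2) * (i + δ) := by
        linarith
      exact le_of_mul_le_mul_left h13 (by linarith)
    linarith
  have hall : ∀ n : ℕ, ∀ c : ℤ, -(n : ℤ) < c → ph f c = 0 := by
    intro n
    induction n with
    | zero => intro c hc; exact hbase c (by simpa using hc)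
    | succ n ih =>
      intro c hc
      rcases lt_or_ge (-(n : ℤ)) c with h1 | h1
      · exact ih c h1
      · have : c = -(n : ℤ) := by push_cast at hc; omega
        rw [this]
        exact hstep n ih
  have hph : ∀ c : ℤ, ph f c = 0 := fun c => hall (c.natAbs + 1) c (by omega)
  ext ⟨t, j⟩
  by_contra hne
  have hmem : (t, j) ∈ f.support := Finsupp.mem_support_iff.2 hne
  have h1 := hpos _ hmem
  simp only at h1
  have h2 : colp f t = 0 := by
    have h3 : taylor 1 (colp f t) = 0 := by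
      ext k
      rw [colp_taylor, hwc t k (hph _), coeff_zero]
    exact (taylor_injective (1 : ℚ)) (by rw [h3, map_zero])
  have h4 := colp_coeff f hpos t j.toNat
  rw [h2, coeff_zero, Int.toNat_of_nonneg h1] at h4
  exact hne h4.symm

end Pool.Agent.E8helper71.AX
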